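import Pool.Agent.Helper40.DZ.Stmts
import Pool.Agent.Helper16.BZ.XDEC

/-!
DEC3: the decomposition for measurable cocycles (MP_7a8f48_an).
-/

open Finset Filter MeasureTheory Topology
open scoped ComplexConjugate InnerProductSpace

namespace Pool.Agent.Helper40.DZ

open Pool.Agent.Helper16.AZ (T E Op mm Eig PP)
open Pool.Agent.Helper16.BZ (co Wk EE ff EQ Act xdec_norm_sq xdec_coe_sum)
open Pool.Agent.Helper16.MD (MS PB Am RW Rich)

theorem st_DEC3 (hWOP : ST_WOP3) (hWPW : ST_WPW3) (hATM : Pool.Agent.Helper16.BZ.ST_ATM2)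
    (hDEE : Pool.Agent.Helper16.BZ.ST_DEE2) : ST_DEC3 := by
  intro X _ _ _ _ S m _ d φ v ε κ hS hUC hv hv1 hε hκ
  obtain ⟨W, hW, hA⟩ := hWOP X S m d φ hS hUC
  set v' : Lp (E d) 2 m := ContinuousMap.toLp 2 m ℂ (⟨v, hv⟩ : C(X, E d)) with hv'def
  have hv' : ∀ᵐ θ ∂m, (v' : X → E d) θ = v θ :=
    ContinuousMap.coeFn_toLp (𝕜 := ℂ) m (⟨v, hv⟩ : C(X, E d))
  have hv'1 : ‖v'‖ ≤ 1 := by
    have h1 : ‖v'‖ ^ 2 ≤ 1 := by
      rw [xdec_norm_sq]
      have h2 : ∀ᵐ θ ∂m, ‖(v' : X → E d) θ‖ ^ 2 ≤ (1 : ℝ) := by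
        filter_upwards [hv'] with θ h
        rw [h]
        have := hv1 θ
        nlinarith [norm_nonneg (v θ)]
      calc ∫ θ, ‖(v' : X → E d) θ‖ ^ 2 ∂m ≤ ∫ _θ, (1 : ℝ) ∂m := by
            refine integral_mono_of_nonneg (Eventually.of_forall fun θ => by positivity)
              (integrable_const _) h2
        _ = 1 := by simp
    nlinarith [norm_nonneg v']
  obtain ⟨H, κ', hH, hκ', hATM⟩ := hATM κ hκ
  have hPc : IsClosed ((PP W : Submodule ℂ (Lp (E d) 2 m)) : Set (Lp (E d) 2 m)) :=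
    Submodule.isClosed_topologicalClosure _
  have : CompleteSpace (PP W) := hPc.completeSpace_coe
  obtain ⟨u, hu, w, hw, huw⟩ : ∃ u ∈ PP W, ∃ w ∈ (PP W)ᗮ, v' = u + w :=
    Submodule.exists_add_mem_mem_orthogonal (K := PP W) v'
  have hw1 : ‖w‖ ≤ 1 := by
    have h1 : (inner ℂ u w : ℂ) = 0 := (Submodule.mem_orthogonal _ _).1 hw u hu
    have h2 : ‖u + w‖ * ‖u + w‖ = ‖u‖ * ‖u‖ + ‖w‖ * ‖w‖ :=
      norm_add_sq_eq_norm_sq_add_norm_sq_of_inner_eq_zero u w h1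
    rw [← huw] at h2
    nlinarith [norm_nonneg v', norm_nonneg u, norm_nonneg w]
  have he1 : 0 < min ε (min (1 / 10) (κ' / 4)) :=
    lt_min hε (lt_min (by norm_num) (by linarith))
  set ε' : ℝ := min ε (min (1 / 10) (κ' / 4)) with hε'
  have hle1 : ε' ≤ ε := min_le_left _ _
  have hle2 : ε' ≤ 1 / 10 := (min_le_right _ _).trans (min_le_left _ _)
  have hle3 : ε' ≤ κ' / 4 := (min_le_right _ _).trans (min_le_right _ _)
  obtain ⟨K, z, g, g', hz, hg, hg', hdee⟩ := hDEE X m d W u ε' hW hu he1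
  have hbc : Continuous fun θ => ∑ k ∈ range K, g k θ :=
    continuous_finsetSum _ fun k _ => hg k
  set bb : Lp (E d) 2 m := ∑ k ∈ range K, g' k with hbb
  have hbb' : ∀ᵐ θ ∂m, (bb : X → E d) θ = (fun θ => ∑ k ∈ range K, g k θ) θ := by
    have := xdec_coe_sum K (fun _ => (1 : ℂ)) g' g hg'
    simpa only [one_smul] using this
  have hcc : Continuous fun θ => v θ - ∑ k ∈ range K, g k θ := hv.sub hbc
  have hfc : ∀ᵐ θ ∂m, ((v' - bb : Lp (E d) 2 m) : X → E d) θ =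
      (fun θ => v θ - ∑ k ∈ range K, g k θ) θ := by
    filter_upwards [hv', hbb', Lp.coeFn_sub v' bb] with θ h1 h2 h3
    rw [h3, Pi.sub_apply, h1, h2]
  have hub : ‖u - bb‖ ≤ ε' := by
    have h1 := (hdee 0).1
    simpa only [pow_zero, one_smul, one_apply_eq_self] using h1
  have hfw : v' - bb = w + (u - bb) := by rw [huw]; abel
  have hfn : ‖v' - bb‖ ≤ 11 / 10 := by
    rw [hfw]
    refine (norm_add_le _ _).trans ?_
    linarith
  refine ⟨fun θ => ∑ k ∈ range K, g k θ, fun θ => v θ - ∑ k ∈ range K, g k θ, hbc, hcc,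
    fun θ => by simp, ?_, ⟨K, z, g, fun k => ⟨hz k, hg k⟩, fun h => ?_⟩, H, hH, ?_⟩
  · have h1 : ∫ x, ‖(fun θ => v θ - ∑ k ∈ range K, g k θ) x‖ ^ 2 ∂m = ‖v' - bb‖ ^ 2 := by
      rw [xdec_norm_sq]
      refine integral_congr_ae ?_
      filter_upwards [hfc] with θ k1
      rw [k1]
    rw [h1]
    nlinarith [norm_nonneg (v' - bb)]
  · have h1 := (hWPW X S m d φ W (fun θ => ∑ k ∈ range K, g k θ) bb hS hUC hA hbc hbb').1 h
    have h2 := xdec_coe_sum K (fun k => z k ^ h) g' g hg'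
    have h3 : ∫ θ, ‖Wk S φ h (fun θ => ∑ k ∈ range K, g k θ) θ -
        ∑ k ∈ range K, (z k ^ h) • g k θ‖ ^ 2 ∂m =
        ‖(W ^ h) bb - ∑ k ∈ range K, (z k ^ h) • g' k‖ ^ 2 := by
      rw [xdec_norm_sq]
      refine integral_congr_ae ?_
      filter_upwards [h1, h2, Lp.coeFn_sub ((W ^ h) bb)
        (∑ k ∈ range K, (z k ^ h) • g' k)] with θ k1 k2 k3
      rw [k3, Pi.sub_apply, k1, k2]
    rw [h3]
    exact pow_le_pow_left₀ (norm_nonneg _) ((hdee h).2.trans hle1) 2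
  · by_contra hcon
    have hfreq : ∃ᶠ i : ℕ in atTop, Rich 1 i ∧ κ * (PB 1 i).card * (H : ℝ) ^ 2 <
        ∑ p ∈ PB 1 i, ∑ h ∈ range H, ∑ h' ∈ range H,
        ‖(inner ℂ ((W ^ (p * h)) (v' - bb)) ((W ^ (p * h')) (v' - bb)) : ℂ)‖ ^ 2 := by
      rw [Filter.not_eventually] at hcon
      refine hcon.mono ?_
      intro i hi
      rw [Classical.not_imp, not_le] at hi
      refine ⟨hi.1, hi.2.trans_le (le_of_eq ?_)⟩
      refine Finset.sum_congr rfl fun p _ => Finset.sum_congr rfl fun h _ =>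
        Finset.sum_congr rfl fun h' _ => ?_
      rw [(hWPW X S m d φ W (fun θ => v θ - ∑ k ∈ range K, g k θ) (v' - bb) hS hUC hA hcc
        hfc).2 (p * h) (p * h')]
    obtain ⟨η, hη1, hηE, hη⟩ := hATM (Lp (E d) 2 m) W (v' - bb) hW (hfn.trans (by norm_num)) hfreq
    have hηP : η ∈ PP W := Submodule.le_topologicalClosure _ (Submodule.subset_span hηE)
    have h0 : (inner ℂ η w : ℂ) = 0 := (Submodule.mem_orthogonal _ _).1 hw η hηP
    have h1 : (inner ℂ η (v' - bb) : ℂ) = inner ℂ η (u - bb) := by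
      rw [hfw, inner_add_right, h0, zero_add]
    have h2 : ‖(inner ℂ η (u - bb) : ℂ)‖ ≤ ‖η‖ * ‖u - bb‖ := norm_inner_le_norm _ _
    rw [h1] at hη
    have h4 : ‖η‖ * ‖u - bb‖ ≤ 2 * ε' :=
      mul_le_mul hη1 hub (norm_nonneg _) zero_le_two
    linarith

end Pool.Agent.Helper40.DZ
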