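import Pool.Agent.Helper40.DZ.Stmts

/-!
PTC3: the random part (MP_7a8f48_an).
-/

open Finset Filter MeasureTheory Topology
open scoped ComplexConjugate InnerProductSpace

namespace Pool.Agent.Helper40.DZ

open Pool.Agent.Helper16.AZ (T E Op mm fc Eig PP)
open Pool.Agent.Helper16.BZ (co Wk EE ff EQ Act XX ff_norm ff_norm')
open Pool.Agent.Helper16.CZ (Tw Orth Fn)
open Pool.Agent.Helper16.MD (MS PB Am RW Rich)

/-- second moments -/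
theorem ptc3_sm {X : Type} [MetricSpace X] [CompactSpace X] [MeasurableSpace X]
    [BorelSpace X] (S : X → X) (m : Measure X) [IsProbabilityMeasure m] {d : ℕ} (φ : X → Op d)
    (c : X → E d) (u : E d) (x : X) (hEQ : EQ S m) (hφ : ∀ x, φ x ∈ unitary (Op d))
    (hc : Continuous c) (hc2 : ∫ x, ‖c x‖ ^ 2 ∂m ≤ 3 / 2) (hu : ‖u‖ ≤ 1) (p : ℕ) (hp : 1 ≤ p) :
    ∀ᶠ M : ℕ in atTop, ∑ y ∈ Icc 1 M, ‖ff S φ c u x (p * y)‖ ^ 2 ≤ 2 * (M : ℝ) := by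
  have hF : Continuous (fun y : X => ((‖c y‖ ^ 2 : ℝ) : ℂ)) :=
    Complex.continuous_ofReal.comp ((hc.norm).pow 2)
  have h1 := hEQ p hp (fun y : X => ((‖c y‖ ^ 2 : ℝ) : ℂ)) hF x
  have h2 : ∫ y, ((‖c y‖ ^ 2 : ℝ) : ℂ) ∂m = ((∫ y, ‖c y‖ ^ 2 ∂m : ℝ) : ℂ) := integral_ofReal
  rw [h2] at h1
  have h3 : Tendsto (fun N : ℕ => (∑ n ∈ range N, ‖c (S^[p * n] x)‖ ^ 2) / (N : ℝ)) atTop
      (𝓝 (∫ y, ‖c y‖ ^ 2 ∂m)) := by
    have h4 := (Complex.continuous_re.tendsto _).comp h1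
    rw [Complex.ofReal_re] at h4
    refine h4.congr fun N => ?_
    simp only [Function.comp]
    have : (∑ n ∈ range N, ((‖c (S^[p * n] x)‖ ^ 2 : ℝ) : ℂ)) / (N : ℂ) =
        (((∑ n ∈ range N, ‖c (S^[p * n] x)‖ ^ 2) / (N : ℝ) : ℝ) : ℂ) := by
      push_cast
      rfl
    rw [this, Complex.ofReal_re]
  have h5 : ∀ᶠ N : ℕ in atTop, (∑ n ∈ range N, ‖c (S^[p * n] x)‖ ^ 2) / (N : ℝ) < 7 / 4 :=
    h3.eventually (gt_mem_nhds (by linarith))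
  obtain ⟨N₀, hN₀⟩ := eventually_atTop.1 h5
  filter_upwards [eventually_ge_atTop (N₀ + 7)] with M hM
  have h6 := hN₀ (M + 1) (by omega)
  rw [div_lt_iff₀ (by positivity)] at h6
  have h7 : ∑ y ∈ Icc 1 M, ‖ff S φ c u x (p * y)‖ ^ 2 ≤
      ∑ n ∈ range (M + 1), ‖c (S^[p * n] x)‖ ^ 2 := by
    have h8 : ∑ y ∈ Icc 1 M, ‖ff S φ c u x (p * y)‖ ^ 2 ≤
        ∑ y ∈ Icc 1 M, ‖c (S^[p * y] x)‖ ^ 2 := by
      refine Finset.sum_le_sum fun y _ => ?_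
      exact pow_le_pow_left₀ (norm_nonneg _) (ff_norm' S φ c hφ u x (p * y) hu) 2
    refine h8.trans (Finset.sum_le_sum_of_subset_of_nonneg ?_ ?_)
    · intro y hy
      rw [Finset.mem_Icc] at hy
      rw [Finset.mem_range]
      omega
    · intro y _ _
      positivity
  have h9 : (7 : ℝ) ≤ M := by
    have : 7 ≤ M := by omega
    exact_mod_cast this
  push_cast at h6
  linarith

/-- the contradiction -/
theorem ptc3_num {b Sg V c₀ q H M : ℝ} (hc₀ : 0 < c₀) (hV : 1 ≤ V) (hb0 : 0 < b) (hq0 : 0 ≤ q)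
    (hqb : q ≤ b) (hHpos : 0 < H) (hHM : H ≤ M) (hM4 : 16 * V ^ 4 * H < c₀ ^ 2 * M) (Y : ℝ)
    (hY0 : 0 ≤ Y) (hY : Y ≤ c₀ ^ 2 / 4 * b ^ 2 * H ^ 2 * M) (hM1 : c₀ * b ^ 2 * M ≤ Sg)
    (hg : H ^ 2 * Sg ^ 2 ≤ q ^ 2 * (M * Y + 4 * q ^ 2 * V ^ 4 * (H ^ 3 * M + H ^ 4))) : False := by
  have hMpos : 0 < M := by linarith
  have hg2 : H ^ 2 * Sg ^ 2 ≤ b ^ 2 * (M * (c₀ ^ 2 / 4 * b ^ 2 * H ^ 2 * M) +
      4 * b ^ 2 * V ^ 4 * (H ^ 3 * M + H ^ 4)) := by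
    refine hg.trans ?_
    have hqq : q ^ 2 ≤ b ^ 2 := pow_le_pow_left₀ hq0 hqb 2
    refine mul_le_mul hqq ?_ ?_ (by positivity)
    · refine add_le_add (mul_le_mul_of_nonneg_left hY hMpos.le) ?_
      have h7 : (0 : ℝ) ≤ V ^ 4 * (H ^ 3 * M + H ^ 4) := by positivity
      have h7a := mul_le_mul_of_nonneg_right hqq h7
      have h7b : 4 * q ^ 2 * V ^ 4 * (H ^ 3 * M + H ^ 4) =
          4 * (q ^ 2 * (V ^ 4 * (H ^ 3 * M + H ^ 4))) := by ring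
      have h7c : 4 * b ^ 2 * V ^ 4 * (H ^ 3 * M + H ^ 4) =
          4 * (b ^ 2 * (V ^ 4 * (H ^ 3 * M + H ^ 4))) := by ring
      rw [h7b, h7c]
      linarith
    · exact add_nonneg (mul_nonneg hMpos.le hY0)
        (mul_nonneg (by positivity) (by positivity))
  have hlow : (c₀ * b ^ 2 * M) ^ 2 ≤ Sg ^ 2 := pow_le_pow_left₀ (by positivity) hM1 2
  have hH2 : (0 : ℝ) < H ^ 2 := by positivity
  have h8 : H ^ 2 * (c₀ * b ^ 2 * M) ^ 2 ≤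
      b ^ 2 * (M * (c₀ ^ 2 / 4 * b ^ 2 * H ^ 2 * M) +
      4 * b ^ 2 * V ^ 4 * (H ^ 3 * M + H ^ 4)) :=
    (mul_le_mul_of_nonneg_left hlow hH2.le).trans hg2
  have hbH : (0 : ℝ) < b ^ 4 * H ^ 2 := by positivity
  have h9 : b ^ 4 * H ^ 2 * (c₀ ^ 2 * M ^ 2) ≤
      b ^ 4 * H ^ 2 * (c₀ ^ 2 / 4 * M ^ 2 + 4 * V ^ 4 * (H * M + H ^ 2)) := by
    refine le_trans (le_of_eq ?_) (h8.trans (le_of_eq ?_))
    · ring
    · ring
  have h10 := le_of_mul_le_mul_left h9 hbH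
  have h11 : H * M + H ^ 2 ≤ 2 * (H * M) := by nlinarith
  have h12 : 4 * V ^ 4 * (H * M + H ^ 2) ≤ 8 * V ^ 4 * H * M := by
    have h13 : (0 : ℝ) ≤ 4 * V ^ 4 := by positivity
    nlinarith [mul_le_mul_of_nonneg_left h11 h13]
  have h14 : 16 * V ^ 4 * H * M < c₀ ^ 2 * M * M := mul_lt_mul_of_pos_right hM4 hMpos
  have h15 : 0 < c₀ ^ 2 * M * M := by positivity
  have h16 : c₀ ^ 2 * M ^ 2 = c₀ ^ 2 * M * M := by ring
  have h17 : c₀ ^ 2 / 4 * M ^ 2 = 1 / 4 * (c₀ ^ 2 * M * M) := by ring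
  rw [h16, h17] at h10
  linarith

theorem st_PTC3 (hkt : Pool.Agent.Helper16.BZ.ST_KT2) (hgam : Pool.Agent.Helper16.BZ.ST_GAM2)
    (hSTR : ST_STR) (hw : Pool.Agent.Helper16.MD.ST_WND) : ST_PTC3 := by
  intro η hη hη1
  obtain ⟨c₀, hc₀, hkt'⟩ := hkt η hη hη1
  refine ⟨c₀ ^ 2 / 8, by positivity, ?_⟩
  intro r d lev D ψ S φ c u x H hT hS hEQ hφ hc hc2 hu hH hyp
  by_contra hcon
  have hfreq : ∃ᶠ N : ℕ in atTop, η * N ≤ ‖MS (ff S φ c u x) N‖ := by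
    rw [Filter.not_eventually] at hcon
    exact hcon.mono fun N hN => le_of_lt (not_le.1 hN)
  obtain ⟨V, hV, hcV⟩ : ∃ V : ℝ, 1 ≤ V ∧ ∀ x, ‖c x‖ ≤ V := by
    obtain ⟨C, hC⟩ := (isCompact_range hc).isBounded.exists_norm_le
    exact ⟨max C 1, le_max_right _ _, fun y => (hC _ (Set.mem_range_self y)).trans
      (le_max_left _ _)⟩
  have hV0 : 0 < V := by linarith
  obtain ⟨K, hK2, hK⟩ := hw (64 * V ^ 2 / η ^ 2)
  obtain ⟨I₃, hI₃⟩ := eventually_atTop.1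
    (hSTR r d lev D ψ S φ c (c₀ ^ 2 / 8) H hT hS hφ hc (by positivity) hH hyp)
  obtain ⟨I₂, hI₂⟩ := pow_unbounded_of_one_lt (24 * V / η) (one_lt_two : (1 : ℝ) < 2)
  obtain ⟨I, hI⟩ : ∃ I : ℕ, I = I₂ + I₃ + 1 := ⟨_, rfl⟩
  have hmem : ∀ i ∈ RW 1 I K, I ≤ i ∧ Rich 1 i := by
    intro i hi
    unfold RW at hi
    rw [Finset.mem_filter, Finset.mem_Ico] at hi
    exact ⟨hi.1.1, hi.2⟩
  have h24 : ∀ i ∈ RW 1 I K, 24 * V / η ≤ (2 : ℝ) ^ i := by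
    intro i hi
    have h1 : I ≤ i := (hmem i hi).1
    exact hI₂.le.trans (pow_le_pow_right₀ one_le_two (by omega))
  have hAm : 64 * V ^ 2 / η ^ 2 ≤ Am 1 (RW 1 I K) :=
    hK I 1 (by omega) le_rfl (Nat.one_le_two_pow)
  obtain ⟨i, hiR, Q, hQ, hfr⟩ := hkt' V (RW 1 I K) (ff S φ c u x) hV
    (fun n => ff_norm S φ c hφ.2 u x n V hcV hu)
    (fun p hp => ptc3_sm S (mm r) φ c u x hEQ hφ.2 hc hc2 hu p hp) h24 hAm hfreq
  obtain ⟨hIi, hrich⟩ := hmem i hiR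
  obtain ⟨H', hH', hstr⟩ := hI₃ i (by omega) hrich
  obtain ⟨b, hb⟩ : ∃ b : ℝ, b = ((PB 1 i).card : ℝ) := ⟨_, rfl⟩
  have hb0 : 0 < b := by
    rw [hb]
    have h1 : 0 < (PB 1 i).card := by
      rcases Nat.eq_zero_or_pos (PB 1 i).card with h0 | h0
      · exfalso
        unfold Rich at hrich
        rw [h0, mul_zero] at hrich
        exact absurd hrich (by simp)
      · exact h0
    exact_mod_cast h1
  have hqb : (Q.card : ℝ) ≤ b := by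
    rw [hb]
    exact_mod_cast Finset.card_le_card hQ
  have hq0 : (0 : ℝ) ≤ Q.card := Nat.cast_nonneg _
  have hlarge : ∀ᶠ M : ℕ in atTop, 16 * V ^ 4 * H' / c₀ ^ 2 + H' < (M : ℝ) :=
    tendsto_natCast_atTop_atTop.eventually_gt_atTop _
  obtain ⟨M, hM1, hM2, hM3⟩ := (hfr.and_eventually ((hstr Q hQ x).and hlarge)).exists
  have hg := hgam (T r) S d φ c u x V Q H' M hφ.2 hcV hu hH'
  have hHpos : (0 : ℝ) < (H' : ℝ) := by exact_mod_cast hH'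
  have h0 : (0 : ℝ) ≤ 16 * V ^ 4 * H' / c₀ ^ 2 := by positivity
  have hHM : (H' : ℝ) ≤ M := by linarith
  have hM4 : 16 * V ^ 4 * H' < c₀ ^ 2 * M := by
    have h1 : 16 * V ^ 4 * H' / c₀ ^ 2 < M := by linarith
    rw [div_lt_iff₀ (by positivity)] at h1
    linarith
  rw [← hb] at hM1 hM2
  refine ptc3_num hc₀ hV hb0 hq0 hqb hHpos hHM hM4 _ ?_ ?_ hM1 hg
  · exact Finset.sum_nonneg fun _ _ => Finset.sum_nonneg fun _ _ =>
      Finset.sum_nonneg fun _ _ => sq_nonneg _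
  · refine hM2.trans (le_of_eq ?_)
    ring

end Pool.Agent.Helper40.DZ
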