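import Pool.Agent.Helper40.DZ.Stmts

/-!
STR: the sums of the inner products over a block of primes (MP_7a8f48_an).
-/

open Finset Filter MeasureTheory Topology
open scoped ComplexConjugate InnerProductSpace

namespace Pool.Agent.Helper40.DZ

open Pool.Agent.Helper16.AZ (T E Op mm fc Eig PP)
open Pool.Agent.Helper16.BZ (co Wk EE ff EQ Act XX)
open Pool.Agent.Helper16.CZ (Tw Orth Fn)
open Pool.Agent.Helper16.MD (MS PB Am RW Rich)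

/-- the mean square of the integrals along multiples of `H₀` -/
theorem str_block (hKNA : ST_KNA) (hKER : ST_KER) (hNRD : ST_NRD)
    (hTMP : Pool.Agent.Helper16.CZ.ST_TMP) {r d : ℕ} (lev : Fin r → ℕ)
    (D : Matrix (Fin r) (Fin r) ℤ) (ψ : Fin r → T r → ℝ) (S : T r → T r) (φ : T r → Op d)
    (c : T r → E d) (hT : Tw lev D ψ S) (hS : Continuous S) (hφ : UR φ) (hc : Continuous c)
    (p H t : ℕ) :
    ∑ h ∈ range (H * t), ∑ h' ∈ range (H * t),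
      ‖∫ x, EE S φ c (p * h) (p * h') x ∂(mm r)‖ ^ 2 ≤
    (t : ℝ) ^ 2 * ∑ h ∈ range H, ∑ h' ∈ range H,
      ‖∫ x, EE S φ c (p * h) (p * h') x ∂(mm r)‖ ^ 2 := by
  have hm := hTMP r lev D ψ S hT
  have h1 := (hKER _ (hKNA r d lev D ψ S φ c hT hS hφ hc 0 0)).2 p H t
  have h2 : ∀ k k' : ℕ, nr lev 0 0 (EE S φ c k k') = ‖∫ x, EE S φ c k k' x ∂(mm r)‖ ^ 2 :=
    fun k k' => (hNRD r lev (EE S φ c k k')
      ((EE_RI hS hm hφ (RI.of_continuous hc) k k').memLp 2)).2.2.2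
  simpa only [h2] using h1

theorem st_STR (hSTA : ST_STA) (hKNA : ST_KNA) (hKER : ST_KER) (hNRD : ST_NRD) (hPAR : ST_PAR)
    (hTMP : Pool.Agent.Helper16.CZ.ST_TMP) : ST_STR := by
  intro r d lev D ψ S φ c κ H₀ hT hS hφ hc hκ hH₀ hyp
  have hm := hTMP r lev D ψ S hT
  filter_upwards [hyp, hSTA r d lev D ψ S φ c hT hS hφ hc (κ / 2) (by positivity)] with i h1 h2
  intro hrich
  have hyp1 := h1 hrich
  obtain ⟨t₀, ht₀⟩ := h2 hrich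
  obtain ⟨b, hb⟩ : ∃ b : ℝ, b = ((PB 1 i).card : ℝ) := ⟨_, rfl⟩
  have hb0 : 0 < b := by
    rw [hb]
    have h1 : 0 < (PB 1 i).card := by
      rcases Nat.eq_zero_or_pos (PB 1 i).card with h0 | h0
      · exfalso
        unfold Rich at hrich
        rw [h0, mul_zero] at hrich
        exact absurd hrich (by simp)
      · exact h0
    exact_mod_cast h1
  rw [← hb] at hyp1
  -- the number of shifts
  obtain ⟨t, ht⟩ : ∃ t : ℕ, t = t₀ + 1 := ⟨_, rfl⟩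
  obtain ⟨H, hH⟩ : ∃ H : ℕ, H = H₀ * t := ⟨_, rfl⟩
  have hH1 : 1 ≤ H := by
    rw [hH, ht]
    exact Nat.mul_pos hH₀ (Nat.succ_pos _)
  have hHt : t₀ ≤ H := by
    rw [hH, ht]
    calc t₀ ≤ t₀ + 1 := Nat.le_succ _
      _ = 1 * (t₀ + 1) := (one_mul _).symm
      _ ≤ H₀ * (t₀ + 1) := Nat.mul_le_mul_right _ hH₀
  refine ⟨H, hH1, ?_⟩
  intro Q hQ x
  have hHpos : (0 : ℝ) < (H : ℝ) := by exact_mod_cast hH1
  have h3 := ht₀ H hHt
  rw [← hb] at h3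
  -- the first term
  have h4 : ∑ p ∈ PB 1 i, ∑ h ∈ range H, ∑ h' ∈ range H,
      ‖∫ x, EE S φ c (p * h) (p * h') x ∂(mm r)‖ ^ 2 ≤ κ * b * (H : ℝ) ^ 2 := by
    have h5 : ∑ p ∈ PB 1 i, ∑ h ∈ range H, ∑ h' ∈ range H,
        ‖∫ x, EE S φ c (p * h) (p * h') x ∂(mm r)‖ ^ 2 ≤
        ∑ p ∈ PB 1 i, (t : ℝ) ^ 2 * ∑ h ∈ range H₀, ∑ h' ∈ range H₀,
        ‖∫ x, EE S φ c (p * h) (p * h') x ∂(mm r)‖ ^ 2 := by
      refine Finset.sum_le_sum fun p _ => ?_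
      rw [hH]
      exact str_block hKNA hKER hNRD hTMP lev D ψ S φ c hT hS hφ hc p H₀ t
    refine h5.trans ?_
    rw [← Finset.mul_sum]
    refine (mul_le_mul_of_nonneg_left hyp1 (by positivity)).trans (le_of_eq ?_)
    rw [hH]
    push_cast
    ring
  -- all pairs of shifts
  obtain ⟨ε, hε⟩ : ∃ ε : ℝ, ε = κ / 2 * b ^ 2 := ⟨_, rfl⟩
  have hε0 : 0 < ε := by
    rw [hε]
    positivity
  have hpr : ∀ p ∈ Q, p.Prime := fun p hp => by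
    have := hQ hp
    unfold PB at this
    rw [Finset.mem_filter] at this
    exact this.2.1
  have hall : ∀ᶠ M : ℕ in atTop, ∀ h ∈ range H, ∀ h' ∈ range H,
      ∑ y ∈ Icc 1 M, ‖∑ p ∈ Q, EE S φ c (p * h) (p * h') (S^[p * y] x)‖ ^ 2 ≤
      (‖∑ p ∈ Q, ∫ y, EE S φ c (p * h) (p * h') y ∂(mm r)‖ ^ 2 +
        ∑ p ∈ Q, ∫ y, ‖EE S φ c (p * h) (p * h') y‖ ^ 2 ∂(mm r) +
        ∑ p ∈ Q, ∑ q ∈ Q.erase p, mq lev q (EE S φ c (p * h) (p * h')) + ε) * M := by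
    rw [Filter.eventually_all_finset]
    intro h hh
    rw [Filter.eventually_all_finset]
    intro h' hh'
    exact hPAR r lev D ψ S hT x Q (fun p => EE S φ c (p * h) (p * h')) hpr
      (fun p _ => EE_RI hS hm hφ (RI.of_continuous hc) _ _) ε hε0
  filter_upwards [hall] with M hM
  have hM0 : (0 : ℝ) ≤ M := Nat.cast_nonneg _
  have hqb : (Q.card : ℝ) ≤ b := by
    rw [hb]
    exact_mod_cast Finset.card_le_card hQ
  have hq0 : (0 : ℝ) ≤ Q.card := Nat.cast_nonneg _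
  have hmq : ∀ (q k k' : ℕ), 0 ≤ mq lev q (EE S φ c k k') := fun q k k' =>
    ((hNRD r lev (EE S φ c k k')
      ((EE_RI hS hm hφ (RI.of_continuous hc) k k').memLp 2)).2.2.1 q).1
  -- one pair of shifts
  have hint : ∀ h ∈ range H, ∀ h' ∈ range H,
      ∑ y ∈ Icc 1 M, ‖∑ p ∈ Q, EE S φ c (p * h) (p * h') (S^[p * y] x)‖ ^ 2 ≤
      (b * ∑ p ∈ PB 1 i, ‖∫ y, EE S φ c (p * h) (p * h') y ∂(mm r)‖ ^ 2 +
        (∑ p ∈ PB 1 i, ∫ y, ‖EE S φ c (p * h) (p * h') y‖ ^ 2 ∂(mm r) +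
        ∑ p ∈ PB 1 i, ∑ q ∈ (PB 1 i).erase p, mq lev q (EE S φ c (p * h) (p * h'))) +
        ε) * M := by
    intro h hh h' hh'
    refine (hM h hh h' hh').trans ?_
    refine mul_le_mul_of_nonneg_right ?_ hM0
    have e3 : ‖∑ p ∈ Q, ∫ y, EE S φ c (p * h) (p * h') y ∂(mm r)‖ ^ 2 ≤
        (∑ p ∈ Q, ‖∫ y, EE S φ c (p * h) (p * h') y ∂(mm r)‖) ^ 2 :=
      pow_le_pow_left₀ (norm_nonneg _) (norm_sum_le _ _) 2
    have e4 : (∑ p ∈ Q, ‖∫ y, EE S φ c (p * h) (p * h') y ∂(mm r)‖) ^ 2 ≤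
        Q.card * ∑ p ∈ Q, ‖∫ y, EE S φ c (p * h) (p * h') y ∂(mm r)‖ ^ 2 :=
      sq_sum_le_card_mul_sum_sq
    have e5 : ∑ p ∈ Q, ‖∫ y, EE S φ c (p * h) (p * h') y ∂(mm r)‖ ^ 2 ≤
        ∑ p ∈ PB 1 i, ‖∫ y, EE S φ c (p * h) (p * h') y ∂(mm r)‖ ^ 2 :=
      Finset.sum_le_sum_of_subset_of_nonneg hQ fun _ _ _ => by positivity
    have e6 : (Q.card : ℝ) * ∑ p ∈ Q, ‖∫ y, EE S φ c (p * h) (p * h') y ∂(mm r)‖ ^ 2 ≤
        b * ∑ p ∈ PB 1 i, ‖∫ y, EE S φ c (p * h) (p * h') y ∂(mm r)‖ ^ 2 :=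
      mul_le_mul hqb e5 (Finset.sum_nonneg fun _ _ => by positivity) hb0.le
    have e7 : ∑ p ∈ Q, ∫ y, ‖EE S φ c (p * h) (p * h') y‖ ^ 2 ∂(mm r) ≤
        ∑ p ∈ PB 1 i, ∫ y, ‖EE S φ c (p * h) (p * h') y‖ ^ 2 ∂(mm r) :=
      Finset.sum_le_sum_of_subset_of_nonneg hQ fun _ _ _ =>
        integral_nonneg fun _ => by positivity
    have e8 : ∑ p ∈ Q, ∑ q ∈ Q.erase p, mq lev q (EE S φ c (p * h) (p * h')) ≤
        ∑ p ∈ PB 1 i, ∑ q ∈ (PB 1 i).erase p, mq lev q (EE S φ c (p * h) (p * h')) := by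
      refine (Finset.sum_le_sum fun p _ => Finset.sum_le_sum_of_subset_of_nonneg
        (Finset.erase_subset_erase p hQ) fun q _ _ => hmq q _ _).trans ?_
      exact Finset.sum_le_sum_of_subset_of_nonneg hQ fun _ _ _ =>
        Finset.sum_nonneg fun q _ => hmq q _ _
    linarith
  have hup : ∑ h ∈ range H, ∑ h' ∈ range H, ∑ y ∈ Icc 1 M,
      ‖∑ p ∈ Q, EE S φ c (p * h) (p * h') (S^[p * y] x)‖ ^ 2 ≤
      (b * (∑ p ∈ PB 1 i, ∑ h ∈ range H, ∑ h' ∈ range H,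
          ‖∫ y, EE S φ c (p * h) (p * h') y ∂(mm r)‖ ^ 2) +
        (∑ h ∈ range H, ∑ h' ∈ range H,
          (∑ p ∈ PB 1 i, ∫ y, ‖EE S φ c (p * h) (p * h') y‖ ^ 2 ∂(mm r) +
          ∑ p ∈ PB 1 i, ∑ q ∈ (PB 1 i).erase p, mq lev q (EE S φ c (p * h) (p * h')))) +
        (H : ℝ) ^ 2 * ε) * M := by
    refine (Finset.sum_le_sum fun h hh => Finset.sum_le_sum fun h' hh' =>
      hint h hh h' hh').trans (le_of_eq ?_)
    have h3 : ∑ p ∈ PB 1 i, ∑ h ∈ range H, ∑ h' ∈ range H,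
        ‖∫ y, EE S φ c (p * h) (p * h') y ∂(mm r)‖ ^ 2 =
        ∑ h ∈ range H, ∑ h' ∈ range H, ∑ p ∈ PB 1 i,
        ‖∫ y, EE S φ c (p * h) (p * h') y ∂(mm r)‖ ^ 2 := by
      rw [Finset.sum_comm]
      exact Finset.sum_congr rfl fun h _ => Finset.sum_comm
    rw [h3]
    simp only [← Finset.sum_mul]
    congr 1
    simp only [Finset.sum_add_distrib, ← Finset.mul_sum, Finset.sum_const,
      Finset.card_range, nsmul_eq_mul]
    ring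
  refine hup.trans ?_
  refine mul_le_mul_of_nonneg_right ?_ hM0
  have h5 := mul_le_mul_of_nonneg_left h4 hb0.le
  have h6 : b * (κ * b * (H : ℝ) ^ 2) + κ / 2 * b ^ 2 * (H : ℝ) ^ 2 + (H : ℝ) ^ 2 * ε =
      2 * κ * b ^ 2 * (H : ℝ) ^ 2 := by
    rw [hε]
    ring
  rw [← hb]
  linarith

end Pool.Agent.Helper40.DZ
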