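import Pool.Agent.Helper40.DZ.Stmts

/-!
KNA: the kernels of the masses of the functions `EE` (MP_7a8f48_an).
-/

open Finset Filter MeasureTheory Topology
open scoped ComplexConjugate InnerProductSpace

namespace Pool.Agent.Helper40.DZ

open Pool.Agent.Helper16.AZ (T E Op mm fc Eig PP)
open Pool.Agent.Helper16.BZ (co Wk EE ff EQ Act XX)
open Pool.Agent.Helper16.CZ (Tw Orth Fn)
open Pool.Agent.Helper16.MD (MS PB Am RW Rich)

theorem st_KNA (hNRV : ST_NRV) (hNRS : ST_NRS) (hTMP : Pool.Agent.Helper16.CZ.ST_TMP) :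
    ST_KNA := by
  intro r d lev D ψ S φ c hT hS hφ hc q j
  have hm := hTMP r lev D ψ S hT
  refine ⟨hNRV r d lev q j (fun k => Wk S φ k c)
    (fun k => Wk_RI hS hm hφ (RI.of_continuous hc) k), ?_⟩
  intro k k'
  have h1 := hNRS r lev D ψ S hT q j (EE S φ c k k') hS
    (EE_RI hS hm hφ (RI.of_continuous hc) k k')
  refine Eq.trans ?_ h1
  refine congrArg (nr lev q j) (funext fun x => ?_)
  exact Pool.Agent.Helper16.BZ.EE_shift S φ c hφ.2 k k' 1 x

end Pool.Agent.Helper40.DZ
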